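import Pool.Agent.helper25_fiid.Final

/-!
The class of factor of i.i.d. processes is not closed under `d̄₂`-limits on the `d`-regular tree,
for every `d ≥ 3`.
-/

namespace Pool.Agent.Results.MP_8ebff2_pr.FiidNotClosed

open MeasureTheory Filter Topology Pool.Agent.helper25_fiid

/-- For every `d ≥ 3` there is an infinite `d`-regular tree `G` (a connected, locally finite,
vertex-transitive graph on a countable vertex set), a sequence `X k` of factor of i.i.d. processes
on `G` with finite second moments and an invariant process `Y` with finite second moments, such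
that `d̄₂(X k, Y) → 0` while `Y` is not a factor of i.i.d., not even in the weaker sense in which
the factor map commutes with each automorphism only almost surely. -/
theorem result (d : ℕ) (hd : 3 ≤ d) :
    ∃ (V : Type) (_ : Countable V) (_ : Infinite V) (G : SimpleGraph V) (_ : G.LocallyFinite),
      G.IsTree ∧ G.IsRegularOfDegree d ∧ (∀ u v : V, ∃ γ : G ≃g G, γ u = v) ∧
      ∃ (X : ℕ → Measure (V → ℝ)) (Y : Measure (V → ℝ)),
        (∀ k, IsFIID G (X k) ∧ FiniteSecondMoment (X k)) ∧
        IsInvariantLaw G Y ∧ FiniteSecondMoment Y ∧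
        (∀ o : V, Tendsto (fun k => dbar2 G o (X k) Y) atTop (𝓝 0)) ∧
        ¬ IsFIIDae G Y := by
  obtain ⟨n, rfl⟩ : ∃ n, d = n + 1 := ⟨d - 1, by omega⟩
  have hn : 2 ≤ n := by omega
  obtain ⟨k, rfl⟩ : ∃ k, n = k + 1 := ⟨n - 1, by omega⟩
  refine ⟨RW (k + 1), inferInstance, inferInstance, RW.tree (k + 1), inferInstance,
    ⟨RW.connected, RW.isAcyclic⟩, fun v => RW.degree_eq v, fun u v => ⟨RW.rmul (u⁻¹ * v), ?_⟩,
    XX (k + 1), YY (k + 1), fun j => ⟨isFIID_XX (by omega) j, secondMoment_XX j⟩,
    invariant_YY, secondMoment_YY, fun o => tendsto_dbar2 o, not_isFIIDae_YY hn⟩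
  rw [RW.rmul_apply, mul_inv_cancel_left]

end Pool.Agent.Results.MP_8ebff2_pr.FiidNotClosed
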